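import Pool.Agent.H83.AT.Targets

/-!
# Extension by zero from an open subset is exact
-/

open CategoryTheory CategoryTheory.Limits TopologicalSpace Topology Set Opposite

namespace Pool.Agent.H31.AT

open Pool.Agent.H83.AT Pool.Agent.H96.AL

lemma sp_nat {F : Type} [Field F] {X Y : TopCat.{0}} (f : Y ⟶ X) {G H : Sh F Y} (φ : G ⟶ H)
    (y : Y) (g : Stk ((pf F f).obj G) (f y)) :
    sp f H y (sm ((pf F f).map φ) (f y) g) = sm φ y (sp f G y g) := by
  obtain ⟨V, hx, s, rfl⟩ := exists_gm _ g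
  have h1 : sm ((pf F f).map φ) (f y) (gm ((pf F f).obj G) hx s) =
      gm ((pf F f).obj H) hx (ap ((pf F f).map φ) V s) := (gm_ap ((pf F f).map φ) hx s).symm
  have h2 : sp f H y (gm ((pf F f).obj H) hx (ap ((pf F f).map φ) V s)) =
      gm H (V := pre f V) (x := y) hx (ap φ (pre f V) s) := sp_gm f H y hx (ap φ (pre f V) s)
  have h3 : gm H (V := pre f V) (x := y) hx (ap φ (pre f V) s) =
      sm φ y (gm G (V := pre f V) (x := y) hx s) := gm_ap φ _ s
  have h4 : sp f G y (gm ((pf F f).obj G) hx s) = gm G (V := pre f V) (x := y) hx s :=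
    sp_gm f G y hx s
  rw [h1, h2, h3, h4]

theorem xl (hSP : T_SP) (hEX : T_EX) : T_XL := by
  intro F _ X U
  apply hEX
  intro y
  by_cases hy : y ∈ U
  · right
    let x : osp U := ⟨y, hy⟩
    have hsp : ∀ G : Sh F (osp U), Function.Bijective (sp (inc U) G x) :=
      fun G => hSP F X U G x
    let e1 : ∀ G : Sh F (osp U), Stk ((pf F (inc U)).obj G) ((inc U) x) ≃ₗ[F] Stk G x :=
      fun G => LinearEquiv.ofBijective (sp (inc U) G x) (hsp G)
    have hic : ∀ G : Sh F (osp U), Function.Bijective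
        (sm (ic U ((pf F (inc U)).obj G)) ((inc U) x)) :=
      fun G => sm_ic_bij _ hy
    let e2 : ∀ G : Sh F (osp U), Stk (cutSh U ((pf F (inc U)).obj G)) ((inc U) x) ≃ₗ[F]
        Stk ((pf F (inc U)).obj G) ((inc U) x) :=
      fun G => LinearEquiv.ofBijective (sm (ic U ((pf F (inc U)).obj G)) ((inc U) x)) (hic G)
    refine ⟨x, fun G => (e1 G).symm.trans (e2 G).symm, ?_⟩
    intro A B φ g
    have k1 : ∀ (G : Sh F (osp U)) (z : Stk ((pf F (inc U)).obj G) ((inc U) x)),
        sm (ic U ((pf F (inc U)).obj G)) ((inc U) x) ((e2 G).symm z) = z :=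
      fun G z => (e2 G).apply_symm_apply z
    have k2 : ∀ (G : Sh F (osp U)) (z : Stk G x), sp (inc U) G x ((e1 G).symm z) = z :=
      fun G z => (e1 G).apply_symm_apply z
    change sm (cutMap le_rfl ((pf F (inc U)).map φ)) ((inc U) x)
      ((e2 A).symm ((e1 A).symm g)) = (e2 B).symm ((e1 B).symm (sm φ x g))
    apply (hic B).1
    rw [k1 B]
    have h1 : sm (ic U ((pf F (inc U)).obj B)) ((inc U) x)
        (sm (cutMap le_rfl ((pf F (inc U)).map φ)) ((inc U) x) ((e2 A).symm ((e1 A).symm g))) =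
        sm ((pf F (inc U)).map φ) ((inc U) x) ((e1 A).symm g) := by
      rw [← sm_comp, cutMap_ic, sm_comp, k1 A]
    rw [h1]
    apply (hsp B).1
    rw [k2 B, sp_nat, k2 A]
  · left
    intro G g
    exact stk_cut_eq_zero _ hy g

end Pool.Agent.H31.AT
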